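import Mathlib
import Pool.Agent.R443.Nu2c

/-!
# Partitions with exactly three part sizes: a formula with divisor sums
-/

set_option autoImplicit false

namespace Pool.Agent.V7H11.Nu3

open Finset PowerSeries

open Pool.Agent.R443.Nu2 (nu)

/-- `∑_{m ≥ 1} q^{a m}` -/
noncomputable def x (a : ℕ) : PowerSeries ℤ :=
  PowerSeries.mk (fun m => if 1 ≤ m ∧ a ∣ m then 1 else 0)

theorem coeff_x (a m : ℕ) : coeff m (x a) = if 1 ≤ m ∧ a ∣ m then 1 else 0 := by
  unfold x; rw [coeff_mk]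

/-- partitions with a prescribed set of part sizes -/
theorem card_eq_coeff (n : ℕ) (t : Finset ℕ) (ht : t ⊆ Icc 1 n) :
    (((univ.filter (fun p : n.Partition => p.parts.toFinset = t)).card : ℕ) : ℤ) =
      coeff n (∏ a ∈ t, x a) := by
  classical
  rw [coeff_prod]
  simp only [coeff_x]
  have h1 : ∀ l ∈ finsuppAntidiag t n, ∏ i ∈ t, (if 1 ≤ l i ∧ i ∣ l i then (1:ℤ) else 0) =
      if (∀ i ∈ t, 1 ≤ l i ∧ i ∣ l i) then 1 else 0 := by
    intro l _
    rw [prod_ite_zero]
    simp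
  rw [sum_congr rfl h1, ← sum_filter, sum_const, nsmul_eq_mul, mul_one]
  congr 1
  apply card_bij (fun p _ => p.toFinsuppAntidiag)
  · intro p hp
    rw [mem_filter] at hp
    obtain ⟨-, hp⟩ := hp
    rw [mem_filter]
    have h2 : ∀ i ∈ t, 1 ≤ p.toFinsuppAntidiag i ∧ i ∣ p.toFinsuppAntidiag i := by
      intro i hi
      have hi1 : 1 ≤ i := (mem_Icc.mp (ht hi)).1
      rw [← hp, Multiset.mem_toFinset] at hi
      have hc := Multiset.one_le_count_iff_mem.mpr hi
      have : p.toFinsuppAntidiag i = Multiset.count i p.parts * i := rfl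
      rw [this]
      exact ⟨Nat.one_le_iff_ne_zero.mpr (by positivity), dvd_mul_left _ _⟩
    refine ⟨?_, h2⟩
    have h3 := p.toFinsuppAntidiag_mem_finsuppAntidiag
    rw [mem_finsuppAntidiag] at h3 ⊢
    have hs : p.toFinsuppAntidiag.support ⊆ t := by
      intro i hi
      rw [Finsupp.mem_support_iff] at hi
      have : p.toFinsuppAntidiag i = Multiset.count i p.parts * i := rfl
      rw [this] at hi
      rw [← hp, Multiset.mem_toFinset]
      exact Multiset.count_ne_zero.mp (left_ne_zero_of_mul hi)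
    refine ⟨Eq.trans ?_ h3.1, hs⟩
    apply sum_subset ht
    intro i _ hi
    by_contra h
    exact hi (hs (Finsupp.mem_support_iff.mpr h))
  · intro p _ q _ h
    exact Nat.Partition.toFinsuppAntidiag_injective n h
  · intro l hl
    rw [mem_filter, mem_finsuppAntidiag] at hl
    obtain ⟨⟨h1, h2⟩, h3⟩ := hl
    have hpos : ∀ i ∈ t, 1 ≤ i := fun i hi => (mem_Icc.mp (ht hi)).1
    have hdiv : ∀ i ∈ t, 1 ≤ l i / i := fun i hi =>
      Nat.div_pos (Nat.le_of_dvd (h3 i hi).1 (h3 i hi).2) (hpos i hi)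
    set P : Multiset ℕ := ∑ i ∈ t, Multiset.replicate (l i / i) i with hP
    have hmem : ∀ j, j ∈ P ↔ j ∈ t := by
      intro j
      rw [hP, Multiset.mem_sum]
      constructor
      · rintro ⟨i, hi, hj⟩
        rw [Multiset.mem_replicate] at hj
        rw [hj.2]; exact hi
      · intro hj
        refine ⟨j, hj, ?_⟩
        rw [Multiset.mem_replicate]
        have := hdiv j hj
        exact ⟨by omega, rfl⟩
    have hcount : ∀ j ∈ t, Multiset.count j P = l j / j := by
      intro j hj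
      rw [hP, Multiset.count_sum']
      rw [sum_eq_single j]
      · rw [Multiset.count_replicate_self]
      · intro b _ hb
        rw [Multiset.count_replicate, if_neg hb]
      · intro h; exact absurd hj h
    have hsum : P.sum = n := by
      rw [hP, Multiset.sum_sum, ← h1]
      apply sum_congr rfl
      intro i hi
      rw [Multiset.sum_replicate, smul_eq_mul]
      exact Nat.div_mul_cancel (h3 i hi).2
    refine ⟨⟨P, ?_, hsum⟩, ?_, ?_⟩
    · intro i hi
      exact hpos i ((hmem i).mp hi)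
    · rw [mem_filter]
      refine ⟨mem_univ _, ?_⟩
      ext j
      rw [Multiset.mem_toFinset]
      exact hmem j
    · ext j
      have : (⟨P, fun hi => hpos _ ((hmem _).mp hi), hsum⟩ : n.Partition).toFinsuppAntidiag j =
        Multiset.count j P * j := rfl
      rw [this]
      by_cases hj : j ∈ t
      · rw [hcount j hj]
        exact Nat.div_mul_cancel (h3 j hj).2
      · have h4 : Multiset.count j P = 0 := Multiset.count_eq_zero.mpr (fun h => hj ((hmem j).mp h))
        have h5 : l j = 0 := by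
          by_contra h
          exact hj (h2 (Finsupp.mem_support_iff.mpr h))
        rw [h4, h5, zero_mul]

theorem nu_eq_coeff (k n : ℕ) :
    ((nu k n : ℕ) : ℤ) = coeff n (∑ t ∈ powersetCard k (Icc 1 n), ∏ a ∈ t, x a) := by
  classical
  unfold nu
  rw [card_eq_sum_card_fiberwise (f := fun p : n.Partition => p.parts.toFinset)
    (t := powersetCard k (Icc 1 n))]
  · rw [map_sum, Nat.cast_sum]
    apply sum_congr rfl
    intro t ht
    rw [mem_powersetCard] at ht
    rw [← card_eq_coeff n t ht.1]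
    congr 2
    ext p
    simp only [mem_filter, mem_univ, true_and]
    constructor
    · exact fun h => h.2
    · intro h
      exact ⟨by rw [h]; exact ht.2, h⟩
  · intro p hp
    simp only [coe_filter, Set.mem_ofPred, mem_univ, true_and] at hp
    rw [mem_coe, mem_powersetCard]
    refine ⟨?_, hp⟩
    intro i hi
    rw [Multiset.mem_toFinset] at hi
    rw [mem_Icc]
    refine ⟨p.parts_pos hi, ?_⟩
    have := Multiset.le_sum_of_mem hi
    rwa [p.parts_sum] at this

/-- elementary symmetric sums over a finite set -/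
theorem esum_insert {R : Type*} [CommRing R] (f : ℕ → R) (k : ℕ) {a : ℕ} {s : Finset ℕ}
    (ha : a ∉ s) : ∑ t ∈ powersetCard (k + 1) (insert a s), ∏ b ∈ t, f b =
      ∑ t ∈ powersetCard (k + 1) s, ∏ b ∈ t, f b + f a * ∑ t ∈ powersetCard k s, ∏ b ∈ t, f b := by
  classical
  rw [powersetCard_succ_insert ha, sum_union, sum_image, mul_sum]
  · congr 1
    apply sum_congr rfl
    intro t ht
    rw [mem_powersetCard] at ht
    rw [prod_insert (fun h => ha (ht.1 h))]
  · intro t ht t' ht' h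
    rw [mem_coe, mem_powersetCard] at ht ht'
    have h1 : a ∉ t := fun h => ha (ht.1 h)
    have h2 : a ∉ t' := fun h => ha (ht'.1 h)
    rw [← erase_insert h1, ← erase_insert h2, h]
  · rw [disjoint_left]
    intro t ht ht'
    rw [mem_image] at ht'
    obtain ⟨u, _, rfl⟩ := ht'
    rw [mem_powersetCard] at ht
    exact ha (ht.1 (mem_insert_self _ _))

theorem newton {R : Type*} [CommRing R] (f : ℕ → R) (s : Finset ℕ) :
    (∑ t ∈ powersetCard 1 s, ∏ b ∈ t, f b = ∑ a ∈ s, f a) ∧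
    (2 * ∑ t ∈ powersetCard 2 s, ∏ b ∈ t, f b = (∑ a ∈ s, f a) ^ 2 - ∑ a ∈ s, f a ^ 2) ∧
    (6 * ∑ t ∈ powersetCard 3 s, ∏ b ∈ t, f b = (∑ a ∈ s, f a) ^ 3 -
      3 * (∑ a ∈ s, f a) * (∑ a ∈ s, f a ^ 2) + 2 * ∑ a ∈ s, f a ^ 3) := by
  classical
  induction s using Finset.induction_on with
  | empty =>
    rw [powersetCard_eq_empty.mpr (show (∅ : Finset ℕ).card < 1 by simp),
      powersetCard_eq_empty.mpr (show (∅ : Finset ℕ).card < 2 by simp),
      powersetCard_eq_empty.mpr (show (∅ : Finset ℕ).card < 3 by simp)]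
    simp
  | insert a s ha ih =>
    obtain ⟨h1, h2, h3⟩ := ih
    have h0 : ∑ t ∈ powersetCard 0 s, ∏ b ∈ t, f b = 1 := by
      rw [powersetCard_zero, sum_singleton, prod_empty]
    rw [esum_insert f 0 ha, esum_insert f 1 ha, esum_insert f 2 ha, sum_insert ha, sum_insert ha,
      sum_insert ha, h0, h1]
    refine ⟨by ring, ?_, ?_⟩
    · linear_combination h2
    · linear_combination h3 + 3 * f a * h2

/-- `q / (1 - q)` -/
noncomputable def y : PowerSeries ℤ := PowerSeries.mk (fun m => if 1 ≤ m then 1 else 0)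

theorem x_eq {a : ℕ} (ha : a ≠ 0) : x a = PowerSeries.expand a ha y := by
  ext m
  rw [coeff_x, coeff_expand]
  unfold y
  by_cases h : a ∣ m
  · rw [if_pos h, coeff_mk]
    obtain ⟨u, rfl⟩ := h
    rw [Nat.mul_div_cancel_left _ (Nat.pos_of_ne_zero ha)]
    rcases Nat.eq_zero_or_pos u with rfl | hu
    · simp
    · rw [if_pos ⟨Nat.one_le_iff_ne_zero.mpr (by positivity), dvd_mul_right _ _⟩,
        if_pos (show 1 ≤ u from hu)]
  · rw [if_neg h, if_neg (fun h2 => h h2.2)]

theorem y_eq : y = X * (PowerSeries.mk 1 : PowerSeries ℤ) := by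
  ext m
  rcases m with _ | m
  · simp [y]
  · rw [coeff_succ_X_mul]; simp [y]

theorem coeff_y_sq (m : ℕ) : coeff m (y ^ 2) = ((m - 1 : ℕ) : ℤ) := by
  rw [y_eq, mul_pow, mk_one_pow_eq_mk_choose_add, coeff_X_pow_mul']
  split_ifs with h
  · rw [coeff_mk, Nat.choose_one_right]
    congr 1
    omega
  · have : m - 1 = 0 := by omega
    rw [this]; rfl

theorem coeff_y_cube (m : ℕ) : 2 * coeff m (y ^ 3) = ((m - 1 : ℕ) : ℤ) * ((m - 2 : ℕ) : ℤ) := by
  rw [y_eq, mul_pow, mk_one_pow_eq_mk_choose_add, coeff_X_pow_mul']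
  split_ifs with h
  · rw [coeff_mk]
    obtain ⟨j, rfl⟩ : ∃ j, m = j + 3 := ⟨m - 3, by omega⟩
    rw [show 2 + (j + 3 - 3) = j + 2 by omega, show j + 3 - 1 = j + 2 by omega,
      show j + 3 - 2 = j + 1 by omega]
    have h1 := Nat.choose_mul_succ_eq (j+1) 1
    have h2 := Nat.triangle_succ (j + 1)
    have h3 : (j + 2).choose 2 * 2 = (j + 2) * (j + 1) := by
      have := Nat.choose_two_right (j + 2)
      rw [this]
      exact Nat.div_mul_cancel (by
        rw [show j + 2 - 1 = j + 1 by omega]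
        rw [mul_comm]
        exact (Nat.even_mul_succ_self (j + 1)).two_dvd)
    have h4 : ((((j + 2).choose 2 * 2 : ℕ)) : ℤ) = (((j + 2) * (j + 1) : ℕ) : ℤ) := by rw [h3]
    push_cast at h4 ⊢
    linarith
  · rcases (show m = 0 ∨ m = 1 ∨ m = 2 by omega) with rfl | rfl | rfl <;> simp

/-! ### coefficients of the power sums -/

theorem filter_div {m n : ℕ} (h : m ≤ n) :
    (Icc 1 n).filter (fun a => 1 ≤ m ∧ a ∣ m) = m.divisors := by
  ext a
  rw [mem_filter, mem_Icc, Nat.mem_divisors]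
  constructor
  · rintro ⟨-, h1, h2⟩
    exact ⟨h2, by omega⟩
  · rintro ⟨h1, h2⟩
    have h3 := Nat.le_of_dvd (Nat.pos_of_ne_zero h2) h1
    have h4 := Nat.pos_of_dvd_of_pos h1 (Nat.pos_of_ne_zero h2)
    exact ⟨⟨h4, by omega⟩, by omega, h1⟩

theorem coeff_P1 {m n : ℕ} (h : m ≤ n) :
    coeff m (∑ a ∈ Icc 1 n, x a) = (m.divisors.card : ℤ) := by
  rw [map_sum]
  simp only [coeff_x]
  rw [← sum_filter, filter_div h, sum_const, nsmul_eq_mul, mul_one]

theorem coeff_x_pow {a m k : ℕ} (ha : 1 ≤ a) :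
    coeff m (x a ^ k) = if a ∣ m then coeff (m / a) (y ^ k) else 0 := by
  rw [x_eq (show a ≠ 0 by omega), ← map_pow, coeff_expand]

theorem coeff_P2 {m n : ℕ} (h : m ≤ n) :
    coeff m (∑ a ∈ Icc 1 n, x a ^ 2) = ∑ d ∈ m.divisors, ((d : ℤ) - 1) := by
  rw [map_sum, ← Nat.sum_div_divisors m (fun d => ((d : ℤ) - 1)), ← filter_div h, sum_filter]
  apply sum_congr rfl
  intro a ha
  rw [mem_Icc] at ha
  rw [coeff_x_pow ha.1, coeff_y_sq]
  by_cases h1 : 1 ≤ m ∧ a ∣ m
  · rw [if_pos h1.2, if_pos h1]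
    have : 1 ≤ m / a := Nat.div_pos (Nat.le_of_dvd h1.1 h1.2) ha.1
    rw [Nat.cast_sub this, Nat.cast_one]
  · rw [if_neg h1]
    split_ifs with h2
    · have : m = 0 := by
        by_contra h3
        exact h1 ⟨Nat.pos_of_ne_zero h3, h2⟩
      subst this
      simp
    · rfl

theorem coeff_P3 {m n : ℕ} (h : m ≤ n) :
    2 * coeff m (∑ a ∈ Icc 1 n, x a ^ 3) = ∑ d ∈ m.divisors, ((d : ℤ) - 1) * ((d : ℤ) - 2) := by
  rw [map_sum, ← Nat.sum_div_divisors m (fun d => ((d : ℤ) - 1) * ((d : ℤ) - 2)), ← filter_div h,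
    sum_filter, mul_sum]
  apply sum_congr rfl
  intro a ha
  rw [mem_Icc] at ha
  rw [coeff_x_pow ha.1]
  by_cases h1 : 1 ≤ m ∧ a ∣ m
  · rw [if_pos h1.2, if_pos h1, coeff_y_cube]
    have h3 : 1 ≤ m / a := Nat.div_pos (Nat.le_of_dvd h1.1 h1.2) ha.1
    rcases Nat.lt_or_ge (m / a) 2 with h4 | h4
    · have : m / a = 1 := by omega
      rw [this]; simp
    · rw [Nat.cast_sub h3, Nat.cast_sub h4, Nat.cast_one, Nat.cast_two]
  · rw [if_neg h1]
    split_ifs with h2
    · have : m = 0 := by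
        by_contra h3
        exact h1 ⟨Nat.pos_of_ne_zero h3, h2⟩
      subst this
      rw [coeff_y_cube]
      simp
    · simp

/-- number of divisors -/
def d (m : ℕ) : ℤ := (m.divisors.card : ℤ)

/-- sum of divisors -/
def sg (m : ℕ) : ℤ := ∑ a ∈ m.divisors, (a : ℤ)

/-- the formula for the number of partitions with three part sizes -/
theorem nu3_formula (n : ℕ) : 6 * ((nu 3 n : ℕ) : ℤ) =
    ∑ p ∈ antidiagonal n, d p.1 * (∑ q ∈ antidiagonal p.2, d q.1 * d q.2) -
      3 * ∑ p ∈ antidiagonal n, d p.1 * (sg p.2 - d p.2) +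
      ∑ a ∈ n.divisors, ((a : ℤ) - 1) * ((a : ℤ) - 2) := by
  rw [nu_eq_coeff]
  have h := congrArg (coeff n) (newton x (Icc 1 n)).2.2
  rw [map_add, map_sub] at h
  have e6 : coeff n (6 * ∑ t ∈ powersetCard 3 (Icc 1 n), ∏ b ∈ t, x b) =
      6 * coeff n (∑ t ∈ powersetCard 3 (Icc 1 n), ∏ b ∈ t, x b) := by
    rw [show (6 : PowerSeries ℤ) = C (6 : ℤ) by simp, coeff_C_mul]
  have e2 : coeff n (2 * ∑ a ∈ Icc 1 n, x a ^ 3) = 2 * coeff n (∑ a ∈ Icc 1 n, x a ^ 3) := by
    rw [show (2 : PowerSeries ℤ) = C (2 : ℤ) by simp, coeff_C_mul]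
  have e3 : coeff n (3 * (∑ a ∈ Icc 1 n, x a) * (∑ a ∈ Icc 1 n, x a ^ 2)) =
      3 * ∑ p ∈ antidiagonal n, d p.1 * (sg p.2 - d p.2) := by
    rw [show (3 : PowerSeries ℤ) = C (3 : ℤ) by simp, mul_assoc, coeff_C_mul, coeff_mul]
    congr 1
    apply sum_congr rfl
    rintro ⟨i, j⟩ hij
    rw [HasAntidiagonal.mem_antidiagonal] at hij
    simp only at hij ⊢
    rw [coeff_P1 (by omega), coeff_P2 (by omega)]
    unfold d sg
    rw [sum_sub_distrib, sum_const, nsmul_eq_mul, mul_one]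
  have e1 : coeff n ((∑ a ∈ Icc 1 n, x a) ^ 3) =
      ∑ p ∈ antidiagonal n, d p.1 * (∑ q ∈ antidiagonal p.2, d q.1 * d q.2) := by
    rw [show (∑ a ∈ Icc 1 n, x a) ^ 3 = (∑ a ∈ Icc 1 n, x a) * ((∑ a ∈ Icc 1 n, x a) *
      (∑ a ∈ Icc 1 n, x a)) by ring, coeff_mul]
    apply sum_congr rfl
    rintro ⟨i, j⟩ hij
    rw [HasAntidiagonal.mem_antidiagonal] at hij
    simp only at hij ⊢
    rw [coeff_P1 (by omega), coeff_mul]
    congr 1
    apply sum_congr rfl
    rintro ⟨k, l⟩ hkl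
    rw [HasAntidiagonal.mem_antidiagonal] at hkl
    simp only at hkl ⊢
    rw [coeff_P1 (by omega), coeff_P1 (by omega)]
    rfl
  rw [e6, e2, e3, e1, coeff_P3 le_rfl] at h
  exact h

end Pool.Agent.V7H11.Nu3
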