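import Mathlib
import Pool.Agent.R443.Nu2c

/-!
# Ternary representations
-/

set_option autoImplicit false

namespace Pool.Agent.V7H11.Nu3

open Finset

open Pool.Agent.R443.Nu2 (s e N4 mem_N4)

/-- solutions of `x² + y² + z² = n` in positive integers -/
def T (n : ℕ) : Finset (ℕ × ℕ × ℕ) :=
  (Icc 1 n ×ˢ Icc 1 n ×ˢ Icc 1 n).filter (fun t => t.1 * t.1 + t.2.1 * t.2.1 + t.2.2 * t.2.2 = n)

theorem mem_T {n x y z : ℕ} : (x, y, z) ∈ T n ↔
    1 ≤ x ∧ 1 ≤ y ∧ 1 ≤ z ∧ x * x + y * y + z * z = n := by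
  unfold T
  simp only [mem_filter, mem_product, mem_Icc]
  constructor
  · rintro ⟨⟨⟨h1, _⟩, ⟨h2, _⟩, h3, _⟩, h⟩
    exact ⟨h1, h2, h3, h⟩
  · rintro ⟨h1, h2, h3, h⟩
    refine ⟨⟨⟨h1, ?_⟩, ⟨h2, ?_⟩, h3, ?_⟩, h⟩ <;> nlinarith

/-- solutions of `4 w² + y² + z² = n` in positive integers -/
def U (n : ℕ) : Finset (ℕ × ℕ × ℕ) :=
  (Icc 1 n ×ˢ Icc 1 n ×ˢ Icc 1 n).filter
    (fun t => 4 * (t.1 * t.1) + t.2.1 * t.2.1 + t.2.2 * t.2.2 = n)

theorem mem_U {n x y z : ℕ} : (x, y, z) ∈ U n ↔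
    1 ≤ x ∧ 1 ≤ y ∧ 1 ≤ z ∧ 4 * (x * x) + y * y + z * z = n := by
  unfold U
  simp only [mem_filter, mem_product, mem_Icc]
  constructor
  · rintro ⟨⟨⟨h1, _⟩, ⟨h2, _⟩, h3, _⟩, h⟩
    exact ⟨h1, h2, h3, h⟩
  · rintro ⟨h1, h2, h3, h⟩
    refine ⟨⟨⟨h1, ?_⟩, ⟨h2, ?_⟩, h3, ?_⟩, h⟩ <;> nlinarith

/-- solutions of `2 w² + u² + 4 v² = N` in positive integers -/
def V (N : ℕ) : Finset (ℕ × ℕ × ℕ) :=
  (Icc 1 N ×ˢ Icc 1 N ×ˢ Icc 1 N).filter
    (fun t => 2 * (t.1 * t.1) + t.2.1 * t.2.1 + 4 * (t.2.2 * t.2.2) = N)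

theorem mem_V {n x y z : ℕ} : (x, y, z) ∈ V n ↔
    1 ≤ x ∧ 1 ≤ y ∧ 1 ≤ z ∧ 2 * (x * x) + y * y + 4 * (z * z) = n := by
  unfold V
  simp only [mem_filter, mem_product, mem_Icc]
  constructor
  · rintro ⟨⟨⟨h1, _⟩, ⟨h2, _⟩, h3, _⟩, h⟩
    exact ⟨h1, h2, h3, h⟩
  · rintro ⟨h1, h2, h3, h⟩
    refine ⟨⟨⟨h1, ?_⟩, ⟨h2, ?_⟩, h3, ?_⟩, h⟩ <;> nlinarith

theorem sq_mod (x : ℕ) : (x % 2 = 0 ∧ x * x % 4 = 0) ∨ (x % 2 = 1 ∧ x * x % 8 = 1) := by
  rcases Nat.even_or_odd x with h | h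
  · left
    obtain ⟨y, rfl⟩ := h
    have : (y + y) * (y + y) = 4 * (y * y) := by ring
    rw [this]; omega
  · right
    obtain ⟨y, rfl⟩ := h
    obtain ⟨z, hz⟩ := Nat.even_mul_succ_self y
    have : (2 * y + 1) * (2 * y + 1) = 4 * (y * (y + 1)) + 1 := by ring
    rw [this, hz]; omega

theorem T_one_even {n x y z : ℕ} (hn : n % 8 = 6) (h : x * x + y * y + z * z = n) :
    (x % 2 = 0 ∧ y % 2 = 1 ∧ z % 2 = 1) ∨ (x % 2 = 1 ∧ y % 2 = 0 ∧ z % 2 = 1) ∨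
    (x % 2 = 1 ∧ y % 2 = 1 ∧ z % 2 = 0) := by
  rcases sq_mod x with h1 | h1 <;> rcases sq_mod y with h2 | h2 <;> rcases sq_mod z with h3 | h3 <;>
    omega

theorem T_x {n : ℕ} :
    ((T n).filter (fun t => t.1 % 2 = 0)).card = (U n).card := by
  symm
  apply card_bij (fun t _ => (2 * t.1, t.2.1, t.2.2))
  · rintro ⟨x, y, z⟩ h
    rw [mem_U] at h
    rw [mem_filter, mem_T]
    simp only
    refine ⟨⟨by omega, h.2.1, h.2.2.1, ?_⟩, by omega⟩
    rw [← h.2.2.2]; ring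
  · rintro ⟨x, y, z⟩ _ ⟨x', y', z'⟩ _ h
    simp only [Prod.mk.injEq] at h ⊢
    omega
  · rintro ⟨x, y, z⟩ h
    rw [mem_filter, mem_T] at h
    simp only at h
    obtain ⟨w, rfl⟩ : ∃ w, x = 2 * w := ⟨x / 2, by omega⟩
    refine ⟨(w, y, z), ?_, rfl⟩
    rw [mem_U]
    refine ⟨by omega, h.1.2.1, h.1.2.2.1, ?_⟩
    rw [← h.1.2.2.2]; ring

theorem T_y {n : ℕ} : ((T n).filter (fun t => t.2.1 % 2 = 0)).card =
    ((T n).filter (fun t => t.1 % 2 = 0)).card := by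
  apply card_bij (fun t _ => (t.2.1, t.1, t.2.2))
  · rintro ⟨x, y, z⟩ h
    rw [mem_filter, mem_T] at h ⊢
    simp only at h ⊢
    refine ⟨⟨h.1.2.1, h.1.1, h.1.2.2.1, ?_⟩, h.2⟩
    rw [← h.1.2.2.2]; ring
  · rintro ⟨x, y, z⟩ _ ⟨x', y', z'⟩ _ h
    simp only [Prod.mk.injEq] at h ⊢
    omega
  · rintro ⟨x, y, z⟩ h
    refine ⟨(y, x, z), ?_, rfl⟩
    rw [mem_filter, mem_T] at h ⊢
    simp only at h ⊢
    refine ⟨⟨h.1.2.1, h.1.1, h.1.2.2.1, ?_⟩, h.2⟩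
    rw [← h.1.2.2.2]; ring

theorem T_z {n : ℕ} : ((T n).filter (fun t => t.2.2 % 2 = 0)).card =
    ((T n).filter (fun t => t.1 % 2 = 0)).card := by
  apply card_bij (fun t _ => (t.2.2, t.2.1, t.1))
  · rintro ⟨x, y, z⟩ h
    rw [mem_filter, mem_T] at h ⊢
    simp only at h ⊢
    refine ⟨⟨h.1.2.2.1, h.1.2.1, h.1.1, ?_⟩, h.2⟩
    rw [← h.1.2.2.2]; ring
  · rintro ⟨x, y, z⟩ _ ⟨x', y', z'⟩ _ h
    simp only [Prod.mk.injEq] at h ⊢
    omega
  · rintro ⟨x, y, z⟩ h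
    refine ⟨(z, y, x), ?_, rfl⟩
    rw [mem_filter, mem_T] at h ⊢
    simp only at h ⊢
    refine ⟨⟨h.1.2.2.1, h.1.2.1, h.1.1, ?_⟩, h.2⟩
    rw [← h.1.2.2.2]; ring

theorem T_card {n : ℕ} (hn : n % 8 = 6) : (T n).card = 3 * (U n).card := by
  classical
  have h1 : T n = (T n).filter (fun t => t.1 % 2 = 0) ∪ ((T n).filter (fun t => t.2.1 % 2 = 0) ∪
      (T n).filter (fun t => t.2.2 % 2 = 0)) := by
    ext ⟨x, y, z⟩
    simp only [mem_union, mem_filter]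
    constructor
    · intro h
      have h2 := T_one_even hn (mem_T.mp h).2.2.2
      rcases h2 with h2 | h2 | h2
      · left; exact ⟨h, h2.1⟩
      · right; left; exact ⟨h, h2.2.1⟩
      · right; right; exact ⟨h, h2.2.2⟩
    · rintro (h | h | h) <;> exact h.1
  rw [h1, card_union_of_disjoint, card_union_of_disjoint, T_y, T_z, T_x]
  · ring
  · rw [disjoint_left]
    rintro ⟨x, y, z⟩ h h'
    rw [mem_filter] at h h'
    have h2 := T_one_even hn (mem_T.mp h.1).2.2.2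
    simp only at h h'
    omega
  · rw [disjoint_left]
    rintro ⟨x, y, z⟩ h h'
    rw [mem_union, mem_filter, mem_filter] at h'
    rw [mem_filter] at h
    have h2 := T_one_even hn (mem_T.mp h.1).2.2.2
    simp only at h h'
    omega

theorem U_card {N : ℕ} (hN : N % 4 = 3) (hH : ∀ u w : ℕ, u * u + 2 * (w * w) ≠ N) :
    (U (2 * N)).card = 2 * (V N).card := by
  classical
  have hne : ∀ x y z : ℕ, (x, y, z) ∈ U (2 * N) → y ≠ z := by
    rintro x y z h rfl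
    rw [mem_U] at h
    apply hH y x
    omega
  have h1 : (U (2 * N)).card = ((U (2 * N)).filter (fun t => t.2.1 < t.2.2)).card +
      ((U (2 * N)).filter (fun t => ¬ t.2.1 < t.2.2)).card := by
    rw [Finset.card_filter_add_card_filter_not]
  have h2 : ((U (2 * N)).filter (fun t => ¬ t.2.1 < t.2.2)).card =
      ((U (2 * N)).filter (fun t => t.2.1 < t.2.2)).card := by
    apply card_bij (fun t _ => (t.1, t.2.2, t.2.1))
    · rintro ⟨x, y, z⟩ h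
      rw [mem_filter] at h
      have h3 := hne _ _ _ h.1
      rw [mem_filter, mem_U]
      rw [mem_U] at h
      simp only at h ⊢
      refine ⟨⟨h.1.1, h.1.2.2.1, h.1.2.1, ?_⟩, by omega⟩
      rw [← h.1.2.2.2]; ring
    · rintro ⟨x, y, z⟩ _ ⟨x', y', z'⟩ _ h
      simp only [Prod.mk.injEq] at h ⊢
      omega
    · rintro ⟨x, y, z⟩ h
      refine ⟨(x, z, y), ?_, rfl⟩
      rw [mem_filter, mem_U] at h ⊢
      simp only at h ⊢
      refine ⟨⟨h.1.1, h.1.2.2.1, h.1.2.1, ?_⟩, by omega⟩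
      rw [← h.1.2.2.2]; ring
  have hodd : ∀ w u v : ℕ, (w, u, v) ∈ V N → u % 2 = 1 := by
    intro w u v h
    rw [mem_V] at h
    rcases sq_mod u with h1 | h1
    · exfalso
      omega
    · exact h1.1
  have h3 : ((U (2 * N)).filter (fun t => t.2.1 < t.2.2)).card = (V N).card := by
    symm
    apply card_bij (fun t _ => (t.1, (t.2.1 - 2 * t.2.2) + (2 * t.2.2 - t.2.1),
      t.2.1 + 2 * t.2.2))
    · rintro ⟨w, u, v⟩ h
      have hu2 := hodd w u v h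
      rw [mem_V] at h
      obtain ⟨hw, hu, hv, h⟩ := h
      rw [mem_filter, mem_U]
      simp only
      rcases Nat.lt_or_ge u (2 * v) with h4 | h4
      · obtain ⟨k, hk⟩ : ∃ k, k + u = 2 * v := ⟨2 * v - u, by omega⟩
        have e1 : (u - 2 * v) + (2 * v - u) = k := by omega
        rw [e1]
        refine ⟨⟨hw, by omega, by omega, ?_⟩, by omega⟩
        rw [← h]
        have : 4 * (v * v) = (k + u) * (k + u) := by rw [hk]; ring
        rw [this, ← hk]; ring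
      · obtain ⟨k, hk⟩ : ∃ k, k + 2 * v = u := ⟨u - 2 * v, by omega⟩
        have e1 : (u - 2 * v) + (2 * v - u) = k := by omega
        rw [e1]
        refine ⟨⟨hw, by omega, by omega, ?_⟩, by omega⟩
        rw [← h, ← hk]; ring
    · rintro ⟨x, y, z⟩ hx ⟨x', y', z'⟩ hx' h
      have g1 := hodd _ _ _ hx
      have g2 := hodd _ _ _ hx'
      simp only [Prod.mk.injEq] at h ⊢
      omega
    · rintro ⟨x, y, z⟩ h
      rw [mem_filter, mem_U] at h
      simp only at h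
      obtain ⟨⟨hx, hy, hz, h⟩, hlt⟩ := h
      have hyz : y % 2 = 1 ∧ z % 2 = 1 := by
        rcases sq_mod y with h1 | h1 <;> rcases sq_mod z with h2 | h2 <;> omega
      obtain ⟨b, hb⟩ : ∃ b, z = y + 2 * b := ⟨(z - y) / 2, by omega⟩
      subst hb
      have h5 : 2 * (x * x) + (y + b) * (y + b) + b * b = N := by
        have : 2 * (2 * (x * x) + (y + b) * (y + b) + b * b) = 2 * N := by rw [← h]; ring
        omega
      rcases Nat.even_or_odd b with h6 | h6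
      · obtain ⟨v, rfl⟩ := h6
        refine ⟨(x, y + (v + v), v), ?_, ?_⟩
        · rw [mem_V]
          refine ⟨hx, by omega, by omega, ?_⟩
          rw [← h5]; ring
        · simp only [Prod.mk.injEq, true_and]
          omega
      · obtain ⟨v, hv⟩ : ∃ v, y + b = 2 * v := ⟨(y + b) / 2, by
          obtain ⟨r, hr⟩ := h6
          omega⟩
        refine ⟨(x, b, v), ?_, ?_⟩
        · rw [mem_V]
          refine ⟨hx, by omega, by omega, ?_⟩
          rw [← h5, hv]; ring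
        · simp only [Prod.mk.injEq, true_and]
          omega
  rw [h1, h2, h3]; ring

/-- fibres of `V` -/
theorem V_card (N : ℕ) : (V N).card = ∑ w ∈ Icc 1 N, (N4 (N - 2 * (w * w))).card := by
  classical
  rw [card_eq_sum_card_fiberwise (f := fun t : ℕ × ℕ × ℕ => t.1) (t := Icc 1 N)]
  · apply sum_congr rfl
    intro w hw
    rw [mem_Icc] at hw
    apply card_bij (fun t _ => (t.2.1, t.2.2))
    · rintro ⟨x, y, z⟩ h
      rw [mem_filter, mem_V] at h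
      obtain ⟨⟨h1, h2, h3, h4⟩, h5⟩ := h
      simp only at h5
      subst h5
      rw [mem_N4]
      refine ⟨h2, h3, ?_⟩
      rw [← h4, show 2 * (x * x) + y * y + 4 * (z * z) = 2 * (x * x) + (y * y + 4 * z * z) by ring,
        Nat.add_sub_cancel_left]
    · rintro ⟨x, y, z⟩ h ⟨x', y', z'⟩ h' h0
      rw [mem_filter] at h h'
      simp only [Prod.mk.injEq] at h h' h0 ⊢
      omega
    · rintro ⟨u, v⟩ h
      rw [mem_N4] at h
      obtain ⟨h1, h2, h3⟩ := h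
      refine ⟨(w, u, v), ?_, rfl⟩
      rw [mem_filter, mem_V]
      refine ⟨⟨hw.1, h1, h2, ?_⟩, rfl⟩
      have h4 : 4 * v * v = 4 * (v * v) := by ring
      have h5 : 1 ≤ u * u := Nat.one_le_iff_ne_zero.mpr (by positivity)
      omega
  · rintro ⟨x, y, z⟩ h
    rw [mem_coe, mem_V] at h
    rw [mem_coe, mem_Icc]
    simp only
    refine ⟨h.1, ?_⟩
    nlinarith [h.2.2.2]

end Pool.Agent.V7H11.Nu3
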