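import Pool.Agent.V7H11.Nu3.Form
import Pool.Agent.V7H11.Nu3.Tern

/-!
# The number of partitions with three part sizes modulo 2
-/

set_option autoImplicit false

namespace Pool.Agent.V7H11.Nu3

open Finset

open Pool.Agent.R443.Nu2 (nu s e N4 mem_N4 card_eq s_zero e_zero s_pos_iff s_eq_one s_eq_zero e_odd
  s_eq_card)

theorem lift2 {a b : ℕ} (h : (a : ZMod 2) = (b : ZMod 2)) :
    (2 * (a : ZMod 4)) = 2 * (b : ZMod 4) := by
  rw [ZMod.natCast_eq_natCast_iff] at h
  have h2 : 2 * a ≡ 2 * b [MOD 2 * 2] := Nat.ModEq.mul_left' 2 h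
  have h3 := (ZMod.natCast_eq_natCast_iff (2 * a) (2 * b) 4).mpr h2
  push_cast at h3
  exact h3

theorem four0 : (4 : ZMod 4) = 0 := by decide

/-- representations as sums of two positive squares -/
def ss (j : ℕ) : ℕ := ∑ q ∈ antidiagonal j, s q.1 * s q.2

/-- twice a square -/
def s2 (j : ℕ) : ℕ := if j % 2 = 0 then s (j / 2) else 0

/-- the sum of the divisors -/
def sgN (j : ℕ) : ℕ := ∑ a ∈ j.divisors, a

theorem ss_zero : ss 0 = 0 := by simp [ss, s_zero]

theorem sgN_zero : sgN 0 = 0 := by simp [sgN]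

theorem sum_s_f {n M : ℕ} (hM : n ≤ M) (f : ℕ → ℕ) (hf : f 0 = 0) :
    ∑ p ∈ antidiagonal n, s p.1 * f p.2 = ∑ a ∈ Icc 1 M, f (n - a * a) := by
  rw [Finset.Nat.sum_antidiagonal_eq_sum_range_succ_mk]
  have h1 : ∀ i ∈ range n.succ, s i * f (n - i) =
      ∑ a ∈ Icc 1 M, if a * a = i then f (n - i) else 0 := by
    intro i hi
    rw [mem_range] at hi
    rw [s_eq_card (n := M) (by omega), card_eq_sum_ones, sum_filter, sum_mul]
    apply sum_congr rfl
    intro a _
    split_ifs <;> simp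
  rw [sum_congr rfl h1, sum_comm]
  apply sum_congr rfl
  intro a _
  rw [Finset.sum_ite_eq]
  split_ifs with h
  · rfl
  · rw [mem_range] at h
    rw [show n - a * a = 0 by omega, hf]

theorem sum_swap (n : ℕ) (f g : ℕ → ℕ) : ∑ p ∈ antidiagonal n, f p.1 * g p.2 =
    ∑ p ∈ antidiagonal n, g p.1 * f p.2 := by
  rw [← Finset.Nat.sum_antidiagonal_swap]
  apply sum_congr rfl
  intro p _
  simp only [Prod.fst_swap, Prod.snd_swap]
  ring

theorem ss_par (j : ℕ) : ((ss j : ℕ) : ZMod 2) = ((s2 j : ℕ) : ZMod 2) := by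
  unfold ss
  rw [← Finset.sum_filter_add_sum_filter_not (antidiagonal j) (fun p => p.1 = p.2)]
  have h2 : ((∑ p ∈ (antidiagonal j).filter (fun p => ¬ p.1 = p.2), s p.1 * s p.2 : ℕ) :
      ZMod 2) = 0 := by
    rw [Nat.cast_sum]
    apply Finset.sum_involution (fun p _ => p.swap)
    · intro p _
      simp only [Prod.fst_swap, Prod.snd_swap]
      rw [mul_comm (s p.2)]
      exact CharTwo.add_self_eq_zero _
    · intro p hp _
      rw [mem_filter] at hp
      intro h
      apply hp.2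
      have := congrArg Prod.fst h
      simpa using this.symm
    · intro p _
      exact Prod.swap_swap p
    · intro p hp
      rw [mem_filter, HasAntidiagonal.mem_antidiagonal] at hp ⊢
      simp only [Prod.fst_swap, Prod.snd_swap]
      exact ⟨by omega, fun h => hp.2 h.symm⟩
  rw [Nat.cast_add, h2, add_zero]
  unfold s2
  split_ifs with h
  · have h1 : (antidiagonal j).filter (fun p => p.1 = p.2) = {(j / 2, j / 2)} := by
      ext ⟨a, b⟩
      rw [mem_filter, HasAntidiagonal.mem_antidiagonal, mem_singleton, Prod.mk.injEq]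
      simp only
      omega
    rw [h1, sum_singleton]
    push_cast
    have : ∀ x : ZMod 2, x * x = x := by decide
    exact this _
  · have h1 : (antidiagonal j).filter (fun p => p.1 = p.2) = ∅ := by
      rw [filter_eq_empty_iff]
      rintro ⟨a, b⟩ hab
      rw [HasAntidiagonal.mem_antidiagonal] at hab
      simp only at hab ⊢
      omega
    rw [h1, sum_empty]

theorem s_four (l : ℕ) : s (4 * l) = s l := by
  by_cases h : ∃ x : ℕ, 1 ≤ x ∧ x * x = l
  · obtain ⟨x, hx, rfl⟩ := h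
    rw [s_eq_one hx, show 4 * (x * x) = (2 * x) * (2 * x) by ring, s_eq_one (by omega)]
  · rw [s_eq_zero (k := l) (fun x hx he => h ⟨x, hx, he⟩)]
    apply s_eq_zero
    intro x hx he
    rcases sq_mod x with h1 | h1
    · obtain ⟨y, rfl⟩ : ∃ y, x = 2 * y := ⟨x / 2, by omega⟩
      apply h
      refine ⟨y, by omega, ?_⟩
      have : 4 * (y * y) = 4 * l := by rw [← he]; ring
      omega
    · omega

theorem s_two_odd {k : ℕ} (hk : k % 2 = 1) : s (2 * k) = 0 := by
  apply s_eq_zero
  intro x hx he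
  rcases sq_mod x with h1 | h1 <;> omega

theorem sgN_par (j : ℕ) : ((sgN j : ℕ) : ZMod 2) = ((s j + s2 j : ℕ) : ZMod 2) := by
  induction j using Nat.strong_induction_on with
  | _ j ih =>
    rcases Nat.eq_zero_or_pos j with rfl | hj
    · rw [sgN_zero, s_zero]; simp [s2, s_zero]
    · rcases Nat.mod_two_eq_zero_or_one j with h | h
      · obtain ⟨k, rfl⟩ : ∃ k, j = 2 * k := ⟨j / 2, by omega⟩
        have h1 : ∀ m : ℕ, ((sgN m : ℕ) : ZMod 2) =
            ((((m.divisors).filter (fun a => a % 2 = 1)).card : ℕ) : ZMod 2) := by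
          intro m
          unfold sgN
          rw [card_eq_sum_ones, Nat.cast_sum, Nat.cast_sum, sum_filter]
          apply sum_congr rfl
          intro a _
          split_ifs with ha
          · have := (ZMod.natCast_eq_natCast_iff a 1 2).mpr ha
            exact this
          · exact (ZMod.natCast_eq_zero_iff a 2).mpr (by omega)
        have h2 : ((2 * k).divisors).filter (fun a => a % 2 = 1) =
            (k.divisors).filter (fun a => a % 2 = 1) := by
          ext a
          rw [mem_filter, mem_filter, Nat.mem_divisors, Nat.mem_divisors]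
          constructor
          · rintro ⟨⟨ha, _⟩, ha2⟩
            have hcop : Nat.Coprime a 2 := by
              rw [Nat.coprime_comm, Nat.coprime_two_left, Nat.odd_iff]; exact ha2
            exact ⟨⟨hcop.dvd_of_dvd_mul_left ha, by omega⟩, ha2⟩
          · rintro ⟨⟨ha, _⟩, ha2⟩
            exact ⟨⟨Dvd.dvd.mul_left ha 2, by omega⟩, ha2⟩
        rw [h1, h2, ← h1, ih k (by omega)]
        have h3 : s2 (2 * k) = s k := by
          unfold s2
          rw [if_pos (by omega)]
          congr 1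
          omega
        have h4 : s (2 * k) = s2 k := by
          unfold s2
          split_ifs with h5
          · obtain ⟨l, rfl⟩ : ∃ l, k = 2 * l := ⟨k / 2, by omega⟩
            rw [show 2 * (2 * l) = 4 * l by ring, s_four]
            congr 1
            omega
          · exact s_two_odd (by omega)
        rw [h3, h4, add_comm]
      · have h1 : s2 j = 0 := by unfold s2; rw [if_neg (by omega)]
        rw [h1, add_zero]
        have h2 : ((sgN j : ℕ) : ZMod 2) = ((j.divisors.card : ℕ) : ZMod 2) := by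
          unfold sgN
          rw [card_eq_sum_ones, Nat.cast_sum, Nat.cast_sum]
          apply sum_congr rfl
          intro a ha
          rw [Nat.mem_divisors] at ha
          have ha2 : a % 2 = 1 := by
            obtain ⟨b, hb⟩ := ha.1
            rcases Nat.mod_two_eq_zero_or_one a with h3 | h3
            · exfalso
              obtain ⟨c, rfl⟩ : ∃ c, a = 2 * c := ⟨a / 2, by omega⟩
              rw [mul_assoc] at hb
              omega
            · exact h3
          exact (ZMod.natCast_eq_natCast_iff a 1 2).mpr ha2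
        rw [h2, card_eq]
        push_cast
        have : (2 : ZMod 2) = 0 := by decide
        rw [this, zero_mul, zero_add]

/-- pairing the divisors of a nonsquare -/
theorem sum_pairs {R : Type*} [AddCommMonoid R] {c : ℕ} (hs : s c = 0) (g : ℕ → R) :
    ∑ a ∈ c.divisors, g a =
      ∑ z ∈ c.divisorsAntidiagonal.filter (fun z => z.1 < z.2), (g z.1 + g z.2) := by
  have h0 : ∑ a ∈ c.divisors, g a = ∑ z ∈ c.divisorsAntidiagonal, g z.1 := by
    rw [← Nat.map_div_right_divisors, sum_map]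
    rfl
  have hempty : c.divisorsAntidiagonal.filter (fun z => z.1 = z.2) = ∅ := by
    rw [← card_eq_zero]; exact hs
  rw [h0, sum_add_distrib, ← Finset.sum_filter_add_sum_filter_not c.divisorsAntidiagonal
    (fun z => z.1 < z.2)]
  congr 1
  apply sum_nbij' Prod.swap Prod.swap
  · intro z hz
    rw [mem_filter] at hz ⊢
    refine ⟨Nat.swap_mem_divisorsAntidiagonal.mpr hz.1, ?_⟩
    have : z.1 ≠ z.2 := by
      intro h
      have h2 : z ∈ c.divisorsAntidiagonal.filter (fun z => z.1 = z.2) := by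
        rw [mem_filter]; exact ⟨hz.1, h⟩
      rw [hempty] at h2
      exact absurd h2 (notMem_empty _)
    simp only [Prod.fst_swap, Prod.snd_swap]
    have := hz.2
    omega
  · intro z hz
    rw [mem_filter] at hz ⊢
    refine ⟨Nat.swap_mem_divisorsAntidiagonal.mpr hz.1, ?_⟩
    simp only [Prod.fst_swap, Prod.snd_swap]
    have := hz.2
    omega
  · intro z _; exact Prod.swap_swap z
  · intro z _; exact Prod.swap_swap z
  · intro z _; rfl

theorem sum_div_two_mul {R : Type*} [AddCommMonoid R] {m : ℕ} (hm : m % 2 = 1) (g : ℕ → R) :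
    ∑ a ∈ (2 * m).divisors, g a = ∑ a ∈ m.divisors, (g a + g (2 * a)) := by
  rw [sum_add_distrib, ← Finset.sum_filter_add_sum_filter_not (2 * m).divisors
    (fun a => a % 2 = 1)]
  congr 1
  · apply sum_congr _ (fun _ _ => rfl)
    ext a
    rw [mem_filter, Nat.mem_divisors, Nat.mem_divisors]
    constructor
    · rintro ⟨⟨ha, _⟩, ha2⟩
      have hcop : Nat.Coprime a 2 := by
        rw [Nat.coprime_comm, Nat.coprime_two_left, Nat.odd_iff]; exact ha2
      exact ⟨hcop.dvd_of_dvd_mul_left ha, by omega⟩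
    · rintro ⟨ha, h0⟩
      refine ⟨⟨Dvd.dvd.mul_left ha 2, by omega⟩, ?_⟩
      obtain ⟨b, hb⟩ := ha
      rcases Nat.mod_two_eq_zero_or_one a with h3 | h3
      · exfalso
        obtain ⟨c, rfl⟩ : ∃ c, a = 2 * c := ⟨a / 2, by omega⟩
        rw [mul_assoc] at hb
        omega
      · exact h3
  · symm
    apply sum_nbij (fun a => 2 * a)
    · intro a ha
      rw [Nat.mem_divisors] at ha
      rw [mem_filter, Nat.mem_divisors]
      exact ⟨⟨Nat.mul_dvd_mul_left 2 ha.1, by omega⟩, by omega⟩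
    · intro a _ b _ h
      simp only at h
      omega
    · intro a ha
      rw [coe_filter, Set.mem_ofPred, Nat.mem_divisors] at ha
      obtain ⟨b, rfl⟩ : ∃ b, a = 2 * b := ⟨a / 2, by omega⟩
      refine ⟨b, ?_, rfl⟩
      rw [mem_coe, Nat.mem_divisors]
      exact ⟨Nat.dvd_of_mul_dvd_mul_left (by norm_num) ha.1.1, by omega⟩
    · intro a _; rfl

/-- `D m` is the number of divisors modulo `4` -/
def D (m : ℕ) : ZMod 4 := 2 * ((e m : ℕ) : ZMod 4) + ((s m : ℕ) : ZMod 4)

theorem d_cast (m : ℕ) : ((d m : ℤ) : ZMod 4) = D m := by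
  unfold d D
  rw [card_eq]; push_cast; ring

theorem cc_eq (j : ℕ) : ∑ q ∈ antidiagonal j, D q.1 * D q.2 = ((ss j : ℕ) : ZMod 4) := by
  have h1 := sum_swap j s e
  have h2 : ∀ q ∈ antidiagonal j, D q.1 * D q.2 =
      4 * (((e q.1 : ℕ) : ZMod 4) * ((e q.2 : ℕ) : ZMod 4)) +
      2 * (((e q.1 * s q.2 : ℕ)) : ZMod 4) + 2 * (((s q.1 * e q.2 : ℕ)) : ZMod 4) +
      ((s q.1 * s q.2 : ℕ) : ZMod 4) := by
    intro q _
    unfold D
    push_cast
    ring
  rw [sum_congr rfl h2, sum_add_distrib, sum_add_distrib, sum_add_distrib, ← mul_sum, ← mul_sum,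
    ← mul_sum, ← Nat.cast_sum, ← Nat.cast_sum, ← Nat.cast_sum, h1]
  unfold ss
  linear_combination (∑ q ∈ antidiagonal j, ((e q.1 : ℕ) : ZMod 4) * ((e q.2 : ℕ) : ZMod 4) +
    ((∑ p ∈ antidiagonal j, e p.1 * s p.2 : ℕ) : ZMod 4)) * four0

theorem ss_T (n : ℕ) : ∑ p ∈ antidiagonal n, s p.1 * ss p.2 = (T n).card := by
  classical
  have h1 : ∀ j M : ℕ, j ≤ M → ss j = ∑ b ∈ Icc 1 M, s (j - b * b) := fun j M h =>
    sum_s_f h s s_zero
  rw [sum_s_f le_rfl ss ss_zero]
  have h2 : (T n).card = ∑ x ∈ Icc 1 n, ∑ y ∈ Icc 1 n,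
      ((Icc 1 n).filter (fun z => x * x + y * y + z * z = n)).card := by
    unfold T
    rw [card_filter, sum_product]
    apply sum_congr rfl
    intro x _
    rw [sum_product]
    apply sum_congr rfl
    intro y _
    rw [card_filter]
  rw [h2]
  apply sum_congr rfl
  intro x _
  rw [h1 (n - x * x) n (by omega)]
  apply sum_congr rfl
  intro y _
  rw [s_eq_card (n := n) (by omega)]
  congr 1
  apply filter_congr
  intro z hz
  rw [mem_Icc] at hz
  have : 1 ≤ z * z := Nat.one_le_iff_ne_zero.mpr (by have := hz.1; positivity)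
  omega

/-- the local contribution -/
theorem F_odd {c : ℕ} (hc : c % 4 = 1) (hs : s c = 0) :
    2 * ((e c : ℕ) : ZMod 4) + ((sgN c : ℕ) : ZMod 4) = 0 := by
  have h1 : 2 * ((e c : ℕ) : ZMod 4) + ((sgN c : ℕ) : ZMod 4) =
      ∑ a ∈ c.divisors, (1 + (a : ZMod 4)) := by
    rw [sum_add_distrib]
    unfold sgN
    rw [Nat.cast_sum]
    congr 1
    have h2 := card_eq c
    rw [hs, add_zero] at h2
    rw [sum_const, h2, nsmul_eq_mul, mul_one]
    push_cast; ring
  rw [h1, sum_pairs hs]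
  apply sum_eq_zero
  intro z hz
  rw [mem_filter, Nat.mem_divisorsAntidiagonal] at hz
  have h3 : (z.1 : ZMod 4) * (z.2 : ZMod 4) = 1 := by
    have := (ZMod.natCast_eq_natCast_iff (z.1 * z.2) 1 4).mpr (by rw [hz.1.1]; exact hc)
    push_cast at this
    exact this
  have key : ∀ a b : ZMod 4, a * b = 1 → 1 + a + (1 + b) = 0 := by decide
  exact key _ _ h3

theorem F_two {m : ℕ} (hm : m % 2 = 1) (hs : s m = 0) :
    2 * ((e (2 * m) : ℕ) : ZMod 4) + ((sgN (2 * m) : ℕ) : ZMod 4) =
      2 * (((N4 m).card : ℕ) : ZMod 4) := by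
  have hs2 : s (2 * m) = 0 := s_two_odd hm
  have h1 : 2 * ((e (2 * m) : ℕ) : ZMod 4) + ((sgN (2 * m) : ℕ) : ZMod 4) =
      ∑ a ∈ (2 * m).divisors, (1 + (a : ZMod 4)) := by
    rw [sum_add_distrib]
    unfold sgN
    rw [Nat.cast_sum]
    congr 1
    have h2 := card_eq (2 * m)
    rw [hs2, add_zero] at h2
    rw [sum_const, h2, nsmul_eq_mul, mul_one]
    push_cast; ring
  rw [h1, sum_div_two_mul hm, sum_pairs hs]
  rcases (show m % 4 = 1 ∨ m % 4 = 3 by omega) with h4 | h4
  · have h5 := lift2 (e_odd h4 hs)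
    rw [← h5]
    unfold e
    rw [card_eq_sum_ones, Nat.cast_sum, mul_sum]
    apply sum_congr rfl
    intro z hz
    rw [mem_filter, Nat.mem_divisorsAntidiagonal] at hz
    have h3 : (z.1 : ZMod 4) * (z.2 : ZMod 4) = 1 := by
      have := (ZMod.natCast_eq_natCast_iff (z.1 * z.2) 1 4).mpr (by rw [hz.1.1]; exact h4)
      push_cast at this
      exact this
    have key : ∀ a b : ZMod 4, a * b = 1 → 1 + a + (1 + 2 * a) + (1 + b + (1 + 2 * b)) = 2 * 1 := by
      decide
    push_cast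
    exact key _ _ h3
  · have hN4 : N4 m = ∅ := by
      rw [eq_empty_iff_forall_notMem]
      rintro ⟨u, v⟩ h
      rw [mem_N4] at h
      have h5 : 4 * v * v = 4 * (v * v) := by ring
      rcases sq_mod u with h6 | h6 <;> omega
    rw [hN4, card_empty, Nat.cast_zero, mul_zero]
    apply sum_eq_zero
    intro z hz
    rw [mem_filter, Nat.mem_divisorsAntidiagonal] at hz
    have h3 : (z.1 : ZMod 4) * (z.2 : ZMod 4) = 3 := by
      have := (ZMod.natCast_eq_natCast_iff (z.1 * z.2) 3 4).mpr (by rw [hz.1.1]; exact h4)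
      push_cast at this
      exact this
    have key : ∀ a b : ZMod 4, a * b = 3 → 1 + a + (1 + 2 * a) + (1 + b + (1 + 2 * b)) = 0 := by
      decide
    push_cast
    exact key _ _ h3

/-- `C` -/
theorem C_eq {N : ℕ} (hN : N % 4 = 3) : ∑ a ∈ (2 * N).divisors, ((a : ZMod 4) - 1) * ((a : ZMod 4) - 2) =
    2 * ((e N : ℕ) : ZMod 4) := by
  have hs : s N = 0 := by
    apply s_eq_zero
    intro x _ h
    rcases sq_mod x with h6 | h6 <;> omega
  rw [sum_div_two_mul (by omega), sum_pairs hs]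
  unfold e
  rw [card_eq_sum_ones, Nat.cast_sum, mul_sum]
  apply sum_congr rfl
  intro z hz
  rw [mem_filter, Nat.mem_divisorsAntidiagonal] at hz
  have h3 : (z.1 : ZMod 4) * (z.2 : ZMod 4) = 3 := by
    have := (ZMod.natCast_eq_natCast_iff (z.1 * z.2) 3 4).mpr (by rw [hz.1.1]; exact hN)
    push_cast at this
    exact this
  have key : ∀ a b : ZMod 4, a * b = 3 → (a - 1) * (a - 2) + (2 * a - 1) * (2 * a - 2) +
      ((b - 1) * (b - 2) + (2 * b - 1) * (2 * b - 2)) = 2 * 1 := by
    decide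
  push_cast
  exact key _ _ h3

theorem sum_F {N : ℕ} (hN : N % 4 = 3) (hH : ∀ u w : ℕ, u * u + 2 * (w * w) ≠ N) :
    ∑ a ∈ Icc 1 (2 * N), (2 * ((e (2 * N - a * a) : ℕ) : ZMod 4) +
      ((sgN (2 * N - a * a) : ℕ) : ZMod 4)) = 2 * (((V N).card : ℕ) : ZMod 4) := by
  rw [← Finset.sum_filter_add_sum_filter_not (Icc 1 (2 * N)) (fun a => a % 2 = 1)]
  have h1 : ∑ a ∈ (Icc 1 (2 * N)).filter (fun a => a % 2 = 1),
      (2 * ((e (2 * N - a * a) : ℕ) : ZMod 4) + ((sgN (2 * N - a * a) : ℕ) : ZMod 4)) = 0 := by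
    apply sum_eq_zero
    intro a ha
    rw [mem_filter] at ha
    rcases Nat.lt_or_ge (a * a) (2 * N) with h | h
    · rcases sq_mod a with h2 | h2
      · omega
      · apply F_odd (by omega)
        apply s_eq_zero
        intro x _ hx
        rcases sq_mod x with h3 | h3 <;> omega
    · rw [show 2 * N - a * a = 0 by omega, e_zero, sgN_zero]
      simp
  rw [h1, zero_add, V_card]
  push_cast
  rw [mul_sum]
  symm
  apply sum_nbij (fun w => 2 * w)
  · intro w hw
    rw [mem_Icc] at hw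
    rw [mem_filter, mem_Icc]
    omega
  · intro a _ b _ h
    simp only at h
    omega
  · intro a ha
    rw [coe_filter, Set.mem_ofPred, mem_Icc] at ha
    refine ⟨a / 2, ?_, ?_⟩
    · rw [mem_coe, mem_Icc]; omega
    · simp only; omega
  · intro w hw
    rw [mem_Icc] at hw
    have e1 : 2 * N - 2 * w * (2 * w) = 2 * (N - 2 * (w * w)) := by
      have : 2 * w * (2 * w) = 2 * (2 * (w * w)) := by ring
      rw [this]; omega
    rw [e1]
    rcases Nat.lt_or_ge (2 * (w * w)) N with h | h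
    · rw [F_two (by omega)]
      apply s_eq_zero
      intro x _ hx
      apply hH x w
      omega
    · rw [show N - 2 * (w * w) = 0 by omega, mul_zero, e_zero, sgN_zero]
      have : N4 0 = ∅ := by
        rw [eq_empty_iff_forall_notMem]
        rintro ⟨u, v⟩ h
        rw [mem_N4] at h
        nlinarith [h.1, h.2.1, h.2.2]
      rw [this]
      simp

/-- The main congruence: `6 ν₃(2N) ≡ 2 e(N) (mod 4)`. -/
theorem main {N : ℕ} (hN : N % 4 = 3) (hH : ∀ u w : ℕ, u * u + 2 * (w * w) ≠ N) :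
    6 * ((nu 3 (2 * N) : ℕ) : ZMod 4) = 2 * ((e N : ℕ) : ZMod 4) := by
  have h0 := congrArg (Int.cast : ℤ → ZMod 4) (nu3_formula (2 * N))
  push_cast at h0
  rw [h0, C_eq hN]
  have hss : ss (2 * N) = 0 := by
    unfold ss
    apply sum_eq_zero
    rintro ⟨i, j⟩ hij
    rw [HasAntidiagonal.mem_antidiagonal] at hij
    simp only at hij ⊢
    by_contra hne
    obtain ⟨x, hx, hxi⟩ := s_pos_iff.mp (left_ne_zero_of_mul hne)
    obtain ⟨y, hy, hyj⟩ := s_pos_iff.mp (right_ne_zero_of_mul hne)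
    rcases sq_mod x with h3 | h3 <;> rcases sq_mod y with h4 | h4 <;> omega
  have hA : ∑ p ∈ antidiagonal (2 * N), ((d p.1 : ℤ) : ZMod 4) *
      ∑ q ∈ antidiagonal p.2, ((d q.1 : ℤ) : ZMod 4) * ((d q.2 : ℤ) : ZMod 4) =
      2 * ((∑ p ∈ antidiagonal (2 * N), e p.1 * ss p.2 : ℕ) : ZMod 4) +
      ((∑ p ∈ antidiagonal (2 * N), s p.1 * ss p.2 : ℕ) : ZMod 4) := by
    rw [Nat.cast_sum, Nat.cast_sum, mul_sum, ← sum_add_distrib]
    apply sum_congr rfl
    intro p _
    simp only [d_cast]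
    rw [cc_eq]
    unfold D
    push_cast; ring
  have hB : ∑ p ∈ antidiagonal (2 * N), ((d p.1 : ℤ) : ZMod 4) *
      (((sg p.2 : ℤ) : ZMod 4) - ((d p.2 : ℤ) : ZMod 4)) =
      2 * ((∑ p ∈ antidiagonal (2 * N), e p.1 * sgN p.2 : ℕ) : ZMod 4) +
      ((∑ p ∈ antidiagonal (2 * N), s p.1 * sgN p.2 : ℕ) : ZMod 4) := by
    have h1 := cc_eq (2 * N)
    rw [hss, Nat.cast_zero] at h1
    have h2 : ∀ m, ((sg m : ℤ) : ZMod 4) = ((sgN m : ℕ) : ZMod 4) := by
      intro m
      unfold sg sgN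
      push_cast
      rfl
    simp only [mul_sub, d_cast, h2]
    rw [sum_sub_distrib, h1, sub_zero, Nat.cast_sum, Nat.cast_sum, mul_sum, ← sum_add_distrib]
    apply sum_congr rfl
    intro p _
    unfold D
    push_cast; ring
  rw [hA, hB, ss_T, T_card (by omega), U_card hN hH]
  have hX : 2 * ((∑ p ∈ antidiagonal (2 * N), e p.1 * ss p.2 : ℕ) : ZMod 4) =
      2 * ((∑ p ∈ antidiagonal (2 * N), e p.1 * s2 p.2 : ℕ) : ZMod 4) := by
    apply lift2
    rw [Nat.cast_sum, Nat.cast_sum]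
    apply sum_congr rfl
    intro p _
    rw [Nat.cast_mul, Nat.cast_mul, ss_par]
  have hY : 2 * ((∑ p ∈ antidiagonal (2 * N), e p.1 * sgN p.2 : ℕ) : ZMod 4) =
      2 * ((∑ p ∈ antidiagonal (2 * N), e p.1 * s p.2 : ℕ) : ZMod 4) +
      2 * ((∑ p ∈ antidiagonal (2 * N), e p.1 * s2 p.2 : ℕ) : ZMod 4) := by
    have h1 : 2 * ((∑ p ∈ antidiagonal (2 * N), e p.1 * sgN p.2 : ℕ) : ZMod 4) =
        2 * ((∑ p ∈ antidiagonal (2 * N), e p.1 * (s p.2 + s2 p.2) : ℕ) : ZMod 4) := by
      apply lift2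
      rw [Nat.cast_sum, Nat.cast_sum]
      apply sum_congr rfl
      intro p _
      rw [Nat.cast_mul, Nat.cast_mul, sgN_par]
    rw [h1]
    push_cast
    rw [← mul_add, ← sum_add_distrib]
    congr 1
    apply sum_congr rfl
    intro p _
    ring
  have hZ := sum_F hN hH
  rw [sum_add_distrib, ← mul_sum, ← Nat.cast_sum, ← Nat.cast_sum, ← sum_s_f le_rfl e e_zero,
    ← sum_s_f le_rfl sgN sgN_zero, sum_swap] at hZ
  rw [hX, hY]
  push_cast at hZ ⊢
  linear_combination (-3) * hZ +
    (-∑ p ∈ antidiagonal (2 * N), ((e p.1 : ℕ) : ZMod 4) * ((s2 p.2 : ℕ) : ZMod 4)) * four0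

end Pool.Agent.V7H11.Nu3
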